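import Pool.Agent.W662.CB.Stmts2
import Pool.Agent.W919.CB.E7
import Pool.Agent.W227.CB.E2
import Pool.Agent.W685.CB.E4
import Pool.Agent.W554.CB.E5
import Pool.Agent.W821.CB.E6

/-!
CB2-Q7: explicit boxes in the Fourier picture (after E7 of W919).
-/

set_option autoImplicit false

open MeasureTheory Filter Topology Complex
open scoped InnerProductSpace ENNReal

namespace Pool.Agent.W52.CB2

open Pool.Agent.W662.CB
open Pool.Agent.W919.CB

noncomputable section

theorem q7_of (h2b : S_E2b) (h4 : S_E4) (h5 : S_E5) (h6 : S_E6) : S_Q7 := by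
  intro H _ _ _ M ξ U hU κ hκ e he0 W hW0 hW1
  have he : ∀ t : ℝ, IsMulOp (ch t) (e t) := he0
  obtain ⟨huq, hadj, hmul, hcom⟩ := h2b H
  -- algebra of the characters
  have e_zero : e 0 = 1 := by
    have := he 0
    rw [ch_zero] at this
    exact huq _ _ _ this mulop_one
  have e_add : ∀ s t : ℝ, e (s + t) = e s * e t := fun s t => by
    have h := hmul _ _ _ _ (he s) (he t)
    rw [ch_mul] at h
    exact huq _ _ _ (he (s + t)) h
  have e_star : ∀ t : ℝ, star (e t) = e (-t) := fun t => by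
    refine hadj _ _ _ (he t) ?_
    rw [ch_conj]
    exact he (-t)
  have e_κ : ∀ (t : ℝ) (y : H →L[ℂ] H), e t * κ y = κ y * e t := fun t y =>
    hcom _ y _ _ (he t) (hκ y)
  have hpi : 0 < 2 * Real.pi := by positivity
  obtain ⟨E, hE, hEd, hEn⟩ := h4 H W hW0
  obtain ⟨J, hJ, hJi, hJa⟩ := h5 H W hW0
  obtain ⟨horth, hcompl⟩ := h6 H W hW0 E J hE hJ hJi hJa
  have hE' : ∀ z, IsMulOp (mz W z) (E z) := hE
  have E_add : ∀ z z' : ℂ, E (z + z') = E z * E z' := fun z z' => by
    have h := hmul _ _ _ _ (hE' z) (hE' z')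
    rw [mz_mul] at h
    exact huq _ _ _ (hE' (z + z')) h
  have E_star : ∀ z : ℂ, star (E z) = E (-(starRingEnd ℂ z)) := fun z => by
    refine hadj _ _ _ (hE' z) ?_
    rw [mz_conj]
    exact hE' _
  have E_κ : ∀ (y : H →L[ℂ] H) (z : ℂ), κ y * E z = E z * κ y := fun y z =>
    (hcom _ y _ _ (hE' z) (hκ y)).symm
  have e_E : ∀ (t : ℝ) (z : ℂ), e t * E z = E z * e t := fun t z => by
    have h := hmul _ _ _ _ (he t) (hE' z)
    have h' := hmul _ _ _ _ (hE' z) (he t)
    have : (fun s => mz W z s * ch t s) = (fun s => ch t s * mz W z s) := by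
      funext s
      ring
    rw [this] at h'
    exact huq _ _ _ h h'
  have κJ : ∀ (y : H →L[ℂ] H) (v : H), κ y (J v) = J (y v) := fun y v => by
    apply Lp.ext
    filter_upwards [hκ y (J v), hJ v, hJ (y v)] with s h1 h2' h3
    rw [h1, h2', h3]
    by_cases hs : s ∈ Set.Icc 0 W
    · rw [Set.indicator_of_mem hs, Set.indicator_of_mem hs, map_smul]
    · rw [Set.indicator_of_notMem hs, Set.indicator_of_notMem hs, map_zero]
  have eJ : ∀ (t : ℝ) (v : H), e t (J v) = E t (J v) := fun t v => by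
    apply Lp.ext
    filter_upwards [he t (J v), hE' t (J v), hJ v] with s h1 h2' h3
    rw [h1, h2', h3]
    by_cases hs : s ∈ Set.Icc 0 W
    · rw [mz_mem _ hs]
      rfl
    · rw [Set.indicator_of_notMem hs, smul_zero, smul_zero]
  have EJ : ∀ v : H, E 0 (J v) = J v := fun v => by
    apply Lp.ext
    filter_upwards [hE' 0 (J v), hJ v] with s h1 h2'
    rw [h1, h2']
    by_cases hs : s ∈ Set.Icc 0 W
    · rw [mz_mem _ hs]
      simp
    · rw [Set.indicator_of_notMem hs, smul_zero]
  have hnE : ∀ z : ℂ, ‖z‖ ≤ 1 → ‖E z - E 0‖ ≤ Real.exp (2 * Real.pi * W) - 1 := fun z hz => by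
    refine (hEn z).trans ?_
    have : 2 * Real.pi * ‖z‖ * W ≤ 2 * Real.pi * W := by
      have h7 : 0 ≤ 2 * Real.pi * W := by positivity
      nlinarith
    have := Real.exp_le_exp.2 this
    linarith
  have hd0 : 0 ≤ Real.exp (2 * Real.pi * W) - 1 := by
    have := Real.one_le_exp (show 0 ≤ 2 * Real.pi * W by positivity)
    linarith
  refine ⟨J, E, ?_, ?_, ?_⟩
  · refine ⟨?_, ?_, ?_, E_add, E_star, hEd, ?_, E_κ, hJi, EJ, κJ, ?_, horth, hcompl, ?_, ?_,
      ?_, ?_, by positivity, hd0, hW1⟩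
    · show e 0 * κ (U 0) = 1
      rw [hU.zero, e_zero, map_one, mul_one]
    · intro s t
      show e (s + t) * κ (U (s + t)) = e s * κ (U s) * (e t * κ (U t))
      rw [e_add, hU.add, map_mul]
      calc e s * e t * (κ (U s) * κ (U t)) = e s * (e t * κ (U s)) * κ (U t) := by
            simp only [mul_assoc]
        _ = e s * (κ (U s) * e t) * κ (U t) := by rw [e_κ]
        _ = e s * κ (U s) * (e t * κ (U t)) := by simp only [mul_assoc]
    · intro t
      show star (e t * κ (U t)) = e (-t) * κ (U (-t))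
      rw [star_mul, e_star, ← map_star, hU.star_eq, e_κ]
    · intro t z
      show e t * κ (U t) * E z = E z * (e t * κ (U t))
      calc e t * κ (U t) * E z = e t * (κ (U t) * E z) := by rw [mul_assoc]
        _ = e t * (E z * κ (U t)) := by rw [E_κ]
        _ = (e t * E z) * κ (U t) := by rw [mul_assoc]
        _ = E z * e t * κ (U t) := by rw [e_E]
        _ = E z * (e t * κ (U t)) := by rw [mul_assoc]
    · intro t v
      show (e t * κ (U t)) (J v) = E t (J (U t v))
      rw [ContinuousLinearMap.mul_apply, κJ, eJ]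
    · exact hnE _ (by simp)
    · exact hnE _ (by simp)
    · exact hnE _ (by simp; norm_num)
    · exact hnE _ (by simp; norm_num)
  · have h8 := hE' 0
    have : mz W 0 = Set.indicator (Set.Icc 0 W) (fun _ => (1 : ℂ)) := by
      funext s
      by_cases hs : s ∈ Set.Icc 0 W
      · rw [mz_mem _ hs, Set.indicator_of_mem hs]
        simp
      · rw [mz_not _ hs, Set.indicator_of_notMem hs]
    rw [this] at h8
    exact h8
  · filter_upwards [hE' (-I / 2) (J ξ), hJ ξ] with s h1 h2'
    rw [h1, h2']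
    by_cases hs : s ∈ Set.Icc 0 W
    · rw [mz_mem _ hs, Set.indicator_of_mem hs, Set.indicator_of_mem hs, smul_smul]
      congr 1
      have h3 : 2 * (Real.pi : ℂ) * I * (-I / 2) * (s : ℂ) = ((Real.pi * s : ℝ) : ℂ) := by
        have h4 : 2 * (Real.pi : ℂ) * I * (-I / 2) * (s : ℂ) = -(I * I) * (Real.pi : ℂ) * s := by
          ring
        rw [h4, I_mul_I]
        push_cast
        ring
      rw [h3, ← Complex.ofReal_exp, ← Complex.ofReal_mul, mul_comm]
    · rw [Set.indicator_of_notMem hs, Set.indicator_of_notMem hs, smul_zero]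

theorem q7 : S_Q7 :=
  q7_of Pool.Agent.W227.CB.e2b (Pool.Agent.W685.CB.E4.e4 Pool.Agent.W227.CB.e2 Pool.Agent.W227.CB.e2b)
    Pool.Agent.W554.CB.e5 Pool.Agent.W821.CB.e6

end

end Pool.Agent.W52.CB2
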